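import Mathlib
import Pool.Agent.Helper14.BSC.All
import Pool.Agent.Helper82.SN.Fin

/-!
# A birational section is geometric iff its image has a nontrivial centralizer

`k` is finitely generated over `ℚ`, `K/k` is a regular function field of one variable, `Ω` is an
algebraic closure of `K`, `kb` is the algebraic closure of `k` in `Ω` and `s` is a section of
`Gal(Ω/K) → Gal(kb/k)`.  The group `Aut(Ω/kb)` of all automorphisms of the field `Ω` over `kb` contains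
`Gal(Ω/K kb)` as a small subgroup (it also contains the lifts of all automorphisms of `K` over `k`).
-/

set_option autoImplicit false

namespace Pool.Agent.Helper82.Old.CentralizerCriterion

/-- `s` is a section of the birational Galois group of `K/k` (the hypotheses of S17615). -/
def IsSection {k K kb Ω : Type} [Field k] [Field K] [Field kb] [Field Ω] [Algebra k kb] [Algebra kb Ω]
    [Algebra K Ω] (s : (kb ≃ₐ[k] kb) →* (Ω ≃ₐ[K] Ω)) : Prop :=
  Continuous s ∧ ∀ (g : kb ≃ₐ[k] kb) (x : kb), s g (algebraMap kb Ω x) = algebraMap kb Ω (g x)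

/-- `s` is geometric and arises from a unique rational point (the conclusion of S17615). -/
def IsGeometric {k K kb Ω : Type} [Field k] [Field K] [Field kb] [Field Ω] [Algebra k K] [Algebra k kb]
    [Algebra K Ω] (s : (kb ≃ₐ[k] kb) →* (Ω ≃ₐ[K] Ω)) : Prop :=
  ∃! O : ValuationSubring K,
    O ≠ ⊤ ∧ (∀ c : k, algebraMap k K c ∈ O) ∧
    (∀ a ∈ O, ∃ c : k, O.valuation (a - algebraMap k K c) < 1) ∧
    ∃ W : ValuationSubring Ω, W.comap (algebraMap K Ω) = O ∧
      ∀ (g : kb ≃ₐ[k] kb) (x : Ω), (s g x ∈ W ↔ x ∈ W)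

/-- The images of the section `s` under the embeddings `φ, ψ : M → K` (that is, under two dominant
rational maps from the curve of `K` to the curve of `M`) agree: for some extensions `Φ, Ψ : ΩM ≃ Ω` of
`φ, ψ` to isomorphisms over `kb` the sections `Φ⁻¹ s Φ` and `Ψ⁻¹ s Ψ` of `Gal(ΩM/M)` are equal.
(Another choice of `Φ` changes `Φ⁻¹ s Φ` by a conjugation by an element of `Gal(ΩM/M kb)`.) -/
def SameImage {k K kb Ω : Type} [Field k] [Field K] [Field kb] [Field Ω] [Algebra k K] [Algebra k kb]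
    [Algebra kb Ω] [Algebra K Ω] (s : (kb ≃ₐ[k] kb) →* (Ω ≃ₐ[K] Ω))
    {M ΩM : Type} [Field M] [Field ΩM] [Algebra k M] [Algebra M ΩM] [Algebra kb ΩM]
    (φ ψ : M →ₐ[k] K) : Prop :=
  ∃ Φ Ψ : ΩM ≃ₐ[kb] Ω,
    (∀ m : M, Φ (algebraMap M ΩM m) = algebraMap K Ω (φ m)) ∧
    (∀ m : M, Ψ (algebraMap M ΩM m) = algebraMap K Ω (ψ m)) ∧
    ∀ (g : kb ≃ₐ[k] kb) (x : ΩM), Φ.symm (s g (Φ x)) = Ψ.symm (s g (Ψ x))

/-- Let `k` be finitely generated over `ℚ`, `K/k` a regular function field of one variable and `s` a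
section. The following are equivalent: (1) `s` is geometric (from a unique rational point); (2) some
`τ ≠ 1` in `Aut(Ω/kb)` commutes with `s(Gal(kb/k))`; (3) some `τ ≠ 1` in `Aut(Ω/kb)` commutes with
`s(U)` for an open subgroup `U`; (4) the fixed field of `s` has a `k`-endomorphism other than the
identity. Moreover, if two different embeddings `φ, ψ : M → K` over `k` map `s` to the same section of
`Gal(ΩM/M)`, then `s` is geometric. -/
theorem result (k : Type) [Field k] [CharZero k] (hk : (⊤ : IntermediateField ℚ k).FG)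
    (K : Type) [Field K] [Algebra k K] (_hK : (⊤ : IntermediateField k K).FG)
    (htr : ∃ t : K, Transcendental k t ∧ Algebra.IsAlgebraic (IntermediateField.adjoin k {t}) K)
    (_hreg : ∀ x : K, IsAlgebraic k x → x ∈ (algebraMap k K).range)
    (kb Ω : Type) [Field kb] [Field Ω] [Algebra k kb] [Algebra kb Ω] [Algebra k Ω] [Algebra K Ω]
    [IsScalarTower k kb Ω] [IsScalarTower k K Ω] [IsAlgClosure k kb] [IsAlgClosure K Ω]
    (s : (kb ≃ₐ[k] kb) →* (Ω ≃ₐ[K] Ω)) (hs : IsSection s) :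
    [IsGeometric s,
      ∃ τ : Ω ≃ₐ[kb] Ω, τ ≠ 1 ∧ ∀ (g : kb ≃ₐ[k] kb) (x : Ω), τ (s g x) = s g (τ x),
      ∃ U : Subgroup (kb ≃ₐ[k] kb), IsOpen (U : Set (kb ≃ₐ[k] kb)) ∧
        ∃ τ : Ω ≃ₐ[kb] Ω, τ ≠ 1 ∧ ∀ g ∈ U, ∀ x : Ω, τ (s g x) = s g (τ x),
      ∃ σ : IntermediateField.fixedField s.range →ₐ[k] IntermediateField.fixedField s.range,
        σ ≠ AlgHom.id k (IntermediateField.fixedField s.range)].TFAE ∧
    ∀ (M ΩM : Type) [Field M] [Field ΩM] [Algebra k M] [Algebra M ΩM] [Algebra kb ΩM]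
      (φ ψ : M →ₐ[k] K), φ ≠ ψ → SameImage (ΩM := ΩM) s φ ψ → IsGeometric s := by
  have _ : IsAlgClosed Ω := IsAlgClosure.isAlgClosed K
  have _ : Algebra.IsAlgebraic K Ω := IsAlgClosure.isAlgebraic
  have h32 : ∀ (U : Subgroup (kb ≃ₐ[k] kb)), IsOpen (U : Set (kb ≃ₐ[k] kb)) →
      ∀ τ : Ω ≃ₐ[kb] Ω, τ ≠ 1 → (∀ g ∈ U, ∀ x : Ω, τ (s g x) = s g (τ x)) → IsGeometric s := by
    intro U hU τ hτ hc
    exact Pool.Agent.Helper82.SN.sn_gen1 Pool.Agent.Helper14.BSC.all_KUM Pool.Agent.Helper14.BSC.all_ONE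
      Pool.Agent.Helper14.BSC.all_IFD Pool.Agent.Helper14.BSC.all_UNI Pool.Agent.Helper14.BSC.all_ALG
      Pool.Agent.Helper14.BSC.all_EXTW Pool.Agent.Helper14.BSC.all_BOT hk htr s hs U hU τ hτ hc
  have h21 : (∃ τ : Ω ≃ₐ[kb] Ω, τ ≠ 1 ∧ ∀ (g : kb ≃ₐ[k] kb) (x : Ω), τ (s g x) = s g (τ x)) →
      IsGeometric s := by
    rintro ⟨τ, hτ, hc⟩
    exact h32 ⊤ isOpen_univ τ hτ (fun g _ x => hc g x)
  have hmem : ∀ x : Ω, x ∈ IntermediateField.fixedField s.range ↔ ∀ g, s g x = x := by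
    intro x
    rw [IntermediateField.mem_fixedField_iff]
    constructor
    · intro h g
      exact h (s g) ⟨g, rfl⟩
    · rintro h _ ⟨g, rfl⟩
      exact h g
  refine ⟨?_, ?_⟩
  · tfae_have 1 → 2 := fun h => Pool.Agent.Helper82.SN.sn_gen2 Pool.Agent.Helper14.BSC.all_KUM
      Pool.Agent.Helper14.BSC.all_BOT htr s hs h
    tfae_have 2 → 3 := fun ⟨τ, hτ, hc⟩ => ⟨⊤, isOpen_univ, τ, hτ, fun g _ x => hc g x⟩
    tfae_have 3 → 1 := fun ⟨U, hU, τ, hτ, hc⟩ => h32 U hU τ hτ hc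
    tfae_have 2 → 4 := fun ⟨τ, hτ, hc⟩ => Pool.Agent.Helper82.SN.sn_gen4 s hs τ hτ hc
    tfae_have 4 → 1 := fun ⟨σ, hσ⟩ => Pool.Agent.Helper82.SN.sn_gen3 Pool.Agent.Helper14.BSC.all_KUM
      Pool.Agent.Helper14.BSC.all_ONE Pool.Agent.Helper14.BSC.all_IFD Pool.Agent.Helper14.BSC.all_UNI
      Pool.Agent.Helper14.BSC.all_ALG Pool.Agent.Helper14.BSC.all_BOT hk htr s hs _ hmem σ hσ
    tfae_finish
  · intro M ΩM _ _ _ _ _ φ ψ hne ⟨Φ, Ψ, hΦ, hΨ, hc⟩
    apply h21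
    refine ⟨Ψ.symm.trans Φ, ?_, ?_⟩
    · intro h
      apply hne
      apply AlgHom.ext
      intro m
      apply (algebraMap K Ω).injective
      rw [← hΦ, ← hΨ]
      have h1 := congrArg (fun τ : Ω ≃ₐ[kb] Ω => τ (Ψ (algebraMap M ΩM m))) h
      have h2 : Φ (Ψ.symm (Ψ (algebraMap M ΩM m))) = Ψ (algebraMap M ΩM m) := h1
      rwa [AlgEquiv.symm_apply_apply] at h2
    · intro g x
      have h1 := hc g (Ψ.symm x)
      rw [AlgEquiv.apply_symm_apply] at h1
      show Φ (Ψ.symm (s g x)) = s g (Φ (Ψ.symm x))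
      rw [← h1, AlgEquiv.apply_symm_apply]

end Pool.Agent.Helper82.Old.CentralizerCriterion
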